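import Pool.Agent.TH818.AP.Pf
import Pool.Agent.TH818.AP.Pfb
import Pool.Agent.TH818.AP.Pfd
import Pool.Agent.Y124.App

/-! A measure of transcendence of `e` of polynomial type, from the Hermite-Padé approximants of the library. -/

set_option autoImplicit false

open Finset Filter Topology

namespace Pool.Agent.H164.EM

/-- the choice of the degree of the approximants -/
theorem choose_n (c1 K L : ℝ) (hc1 : 2 ≤ c1) (hK : 1 ≤ K) (hL : 1 ≤ L) : ∃ C2 : ℝ, 1 ≤ C2 ∧ ∀ H : ℝ, 1 ≤ H →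
    ∃ n : ℕ, 1 ≤ n ∧ c1 * K ^ n * H ≤ (n.factorial : ℝ) ∧ (n.factorial : ℝ) * L ^ n ≤ C2 * H ^ 2 := by
  have hK0 : 0 < K := by linarith
  have hL0 : 0 < L := by linarith
  obtain ⟨B, hB⟩ : ∃ B : ℝ, ∀ n : ℕ, (2 * L * K * K) ^ n / (n.factorial : ℝ) ≤ B := by
    obtain ⟨B, hB⟩ := (FloorSemiring.tendsto_pow_div_factorial_atTop (2 * L * K * K)).bddAbove_range
    exact ⟨B, fun n => hB ⟨n, rfl⟩⟩
  have hB0 : 1 ≤ B := by
    have := hB 0
    simpa using this
  refine ⟨L * B * c1 * c1, ?_, fun H hH => ?_⟩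
  · have h1 : 1 ≤ L * B := one_le_mul_of_one_le_of_one_le hL hB0
    have h2 : 1 ≤ L * B * c1 := one_le_mul_of_one_le_of_one_le h1 (by linarith)
    exact one_le_mul_of_one_le_of_one_le h2 (by linarith)
  have hex : ∃ n : ℕ, c1 * K ^ n * H ≤ (n.factorial : ℝ) := by
    have h1 := (FloorSemiring.tendsto_pow_div_factorial_atTop K).eventually
      (gt_mem_nhds (show (0 : ℝ) < 1 / (c1 * H) by positivity))
    obtain ⟨n, hn⟩ := h1.exists
    refine ⟨n, ?_⟩
    have hf : (0 : ℝ) < n.factorial := by exact_mod_cast n.factorial_pos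
    rw [div_lt_div_iff₀ hf (by positivity)] at hn
    nlinarith
  classical
  let n := Nat.find hex
  have hn : c1 * K ^ n * H ≤ (n.factorial : ℝ) := Nat.find_spec hex
  have hn1 : 1 ≤ n := by
    by_contra hcon
    have h0 : n = 0 := by omega
    rw [h0] at hn
    simp only [pow_zero, mul_one, Nat.factorial_zero, Nat.cast_one] at hn
    nlinarith
  refine ⟨n, hn1, hn, ?_⟩
  obtain ⟨k, hk⟩ : ∃ k, n = k + 1 := ⟨n - 1, by omega⟩
  have hmin : (k.factorial : ℝ) < c1 * K ^ k * H := by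
    have := Nat.find_min hex (show k < n by omega)
    exact not_le.1 this
  have hkf : (0 : ℝ) < k.factorial := by exact_mod_cast k.factorial_pos
  have h1 : (2 * L * K) ^ k * K ^ k ≤ B * k.factorial := by
    have := hB k
    rw [div_le_iff₀ hkf] at this
    rwa [← mul_pow]
  have hKk : 0 < K ^ k := by positivity
  have h2 : (2 * L * K) ^ k ≤ B * c1 * H := by
    have h3 : (2 * L * K) ^ k * K ^ k ≤ (B * c1 * H) * K ^ k := by
      calc (2 * L * K) ^ k * K ^ k ≤ B * k.factorial := h1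
        _ ≤ B * (c1 * K ^ k * H) := mul_le_mul_of_nonneg_left hmin.le (by linarith)
        _ = (B * c1 * H) * K ^ k := by ring
    exact le_of_mul_le_mul_right h3 hKk
  have h2k : ((k : ℝ) + 1) ≤ 2 ^ k := by
    have : k + 1 ≤ 2 ^ k := Nat.lt_two_pow_self
    exact_mod_cast this
  rw [hk, Nat.factorial_succ]
  push_cast
  calc ((k : ℝ) + 1) * k.factorial * L ^ (k + 1) ≤ 2 ^ k * (c1 * K ^ k * H) * L ^ (k + 1) := by
        gcongr
    _ = (c1 * H * L) * (2 * L * K) ^ k := by
        rw [pow_succ, mul_pow, mul_pow]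
        ring
    _ ≤ (c1 * H * L) * (B * c1 * H) := mul_le_mul_of_nonneg_left h2 (by positivity)
    _ = L * B * c1 * c1 * H ^ 2 := by ring

/-- the determinant estimate -/
theorem det_est {m : ℕ} (A : Matrix (Fin (m + 2)) (Fin (m + 2)) ℤ) (hA : A.det ≠ 0) (p : Fin (m + 2) → ℤ) (hp : p ≠ 0)
    (x M R H : ℝ) (hM : 1 ≤ M) (hH : 1 ≤ H) (hAM : ∀ j k, |(A j k : ℝ)| ≤ M)
    (hR : ∀ j, |∑ k : Fin (m + 2), (A j k : ℝ) * x ^ (k : ℕ)| ≤ R) (hpH : ∀ k, |(p k : ℝ)| ≤ H) :
    1 ≤ ((m + 2).factorial : ℝ) * (|∑ k : Fin (m + 2), (p k : ℝ) * x ^ (k : ℕ)| * M ^ (m + 1) + R * H * M ^ m) := by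
  classical
  have hR0 : 0 ≤ R := (abs_nonneg _).trans (hR 0)
  -- a row which can be replaced
  obtain ⟨j0, hj0⟩ : ∃ j0, (A.updateRow j0 p).det ≠ 0 := by
    by_contra hcon
    push Not at hcon
    have h1 : Matrix.cramer A.transpose p = 0 := by
      funext j
      rw [Matrix.cramer_transpose_apply, hcon j]
      rfl
    have h2 := Matrix.mulVec_cramer A.transpose p
    rw [h1, Matrix.mulVec_zero, Matrix.det_transpose] at h2
    apply hp
    funext k
    have h3 := congrFun h2 k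
    simp only [Pi.zero_apply, Pi.smul_apply, smul_eq_mul] at h3
    rcases mul_eq_zero.1 h3.symm with h | h
    · exact absurd h hA
    · exact h
  set B : Matrix (Fin (m + 2)) (Fin (m + 2)) ℤ := A.updateRow j0 p with hB
  have hBdet : (1 : ℝ) ≤ |((B.det : ℤ) : ℝ)| := by
    have : 1 ≤ |B.det| := Int.one_le_abs hj0
    exact_mod_cast this
  set Br : Matrix (Fin (m + 2)) (Fin (m + 2)) ℝ := B.map (Int.cast : ℤ → ℝ) with hBr
  have hBr1 : ((B.det : ℤ) : ℝ) = Br.det := by
    have := (Int.castRingHom ℝ).map_det B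
    simpa using this
  set b : Fin (m + 2) → ℝ := Function.update (fun _ => M) j0 H with hb
  have hb0 : ∀ j, 0 < b j := by
    intro j
    by_cases h : j = j0
    · rw [hb, h, Function.update_self]; linarith
    · rw [hb, Function.update_of_ne h]; linarith
  have hBb : ∀ j k, |Br j k| ≤ b j := by
    intro j k
    by_cases h : j = j0
    · rw [hb, h, Function.update_self, hBr, Matrix.map_apply, hB, Matrix.updateRow_self]
      exact hpH k
    · rw [hb, Function.update_of_ne h, hBr, Matrix.map_apply, hB, Matrix.updateRow_ne h]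
      exact hAM j k
  set w : Fin (m + 2) → ℝ := fun j => ∑ k : Fin (m + 2), x ^ (k : ℕ) * Br j k with hw
  have hdet2 : (Br.updateCol 0 w).det = Br.det := by
    have h1 := Matrix.det_updateCol_sum Br 0 (fun k : Fin (m + 2) => x ^ (k : ℕ))
    simp only [smul_eq_mul, Fin.val_zero, pow_zero, one_mul] at h1
    exact h1
  have hprod : ∀ σ : Equiv.Perm (Fin (m + 2)), b (σ 0) * ∏ i : Fin (m + 1), b (σ i.succ) = H * M ^ (m + 1) := by
    intro σ
    rw [← Fin.prod_univ_succ (fun i => b (σ i)), Equiv.prod_comp σ b, hb,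
      Finset.prod_update_of_mem (Finset.mem_univ j0), Finset.prod_const]
    congr 2
    rw [Finset.card_sdiff_of_subset (Finset.subset_univ _), Finset.card_univ, Fintype.card_fin, Finset.card_singleton]
    rfl
  set X : ℝ := |∑ k : Fin (m + 2), (p k : ℝ) * x ^ (k : ℕ)| * M ^ (m + 1) + R * H * M ^ m with hX
  have hM0 : 0 < M := by linarith
  have hH0 : 0 < H := by linarith
  have hterm : ∀ σ : Equiv.Perm (Fin (m + 2)), |∏ i, (Br.updateCol 0 w) (σ i) i| ≤ X := by
    intro σ
    rw [Fin.prod_univ_succ, abs_mul, Finset.abs_prod, Matrix.updateCol_self]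
    have h1 : ∏ i : Fin (m + 1), |(Br.updateCol 0 w) (σ i.succ) i.succ| ≤ ∏ i : Fin (m + 1), b (σ i.succ) := by
      refine Finset.prod_le_prod (fun i _ => abs_nonneg _) (fun i _ => ?_)
      rw [Matrix.updateCol_ne (Fin.succ_ne_zero i)]
      exact hBb _ _
    refine (mul_le_mul_of_nonneg_left h1 (abs_nonneg _)).trans ?_
    have h2 := hprod σ
    by_cases h : σ 0 = j0
    · have h3 : b (σ 0) = H := by rw [h, hb, Function.update_self]
      rw [h3] at h2
      have h4 : ∏ i : Fin (m + 1), b (σ i.succ) = M ^ (m + 1) := mul_left_cancel₀ hH0.ne' h2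
      rw [h4]
      have h5 : |w (σ 0)| = |∑ k : Fin (m + 2), (p k : ℝ) * x ^ (k : ℕ)| := by
        rw [h, hw]
        congr 1
        refine Finset.sum_congr rfl fun k _ => ?_
        rw [hBr, Matrix.map_apply, hB, Matrix.updateRow_self, mul_comm]
      rw [h5, hX]
      have : 0 ≤ R * H * M ^ m := by positivity
      linarith
    · have h3 : b (σ 0) = M := by rw [hb, Function.update_of_ne h]
      rw [h3] at h2
      have h4 : ∏ i : Fin (m + 1), b (σ i.succ) = H * M ^ m := by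
        apply mul_left_cancel₀ hM0.ne'
        rw [h2]
        ring
      rw [h4]
      have h5 : |w (σ 0)| ≤ R := by
        refine le_trans (le_of_eq ?_) (hR (σ 0))
        rw [hw]
        congr 1
        refine Finset.sum_congr rfl fun k _ => ?_
        rw [hBr, Matrix.map_apply, hB, Matrix.updateRow_ne h, mul_comm]
      calc |w (σ 0)| * (H * M ^ m) ≤ R * (H * M ^ m) := mul_le_mul_of_nonneg_right h5 (by positivity)
        _ ≤ X := by
            rw [hX]
            have : 0 ≤ |∑ k : Fin (m + 2), (p k : ℝ) * x ^ (k : ℕ)| * M ^ (m + 1) := by positivity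
            linarith
  rw [hBr1, ← hdet2, Matrix.det_apply'] at hBdet
  refine hBdet.trans ((Finset.abs_sum_le_sum_abs _ _).trans ?_)
  calc ∑ σ : Equiv.Perm (Fin (m + 2)), |((Equiv.Perm.sign σ : ℤ) : ℝ) * ∏ i, (Br.updateCol 0 w) (σ i) i|
      ≤ ∑ _σ : Equiv.Perm (Fin (m + 2)), X := by
        refine Finset.sum_le_sum fun σ _ => ?_
        rw [abs_mul]
        have hs : |((Equiv.Perm.sign σ : ℤ) : ℝ)| = 1 := by
          rcases Int.units_eq_one_or (Equiv.Perm.sign σ) with h | h <;> rw [h] <;> simp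
        rw [hs, one_mul]
        exact hterm σ
    _ = ((m + 2).factorial : ℝ) * X := by
        rw [Finset.sum_const, Finset.card_univ, Fintype.card_perm, Fintype.card_fin, nsmul_eq_mul]

open Pool.Agent.TH818.AP in
/-- a measure of transcendence of `e` -/
theorem meas (m : ℕ) : ∃ C : ℝ, 0 < C ∧ ∀ H : ℝ, 1 ≤ H → ∀ p : Fin (m + 2) → ℤ, p ≠ 0 → (∀ k, |(p k : ℝ)| ≤ H) →
    1 ≤ C * H ^ (2 * (m + 1)) * |∑ k : Fin (m + 2), (p k : ℝ) * Real.exp 1 ^ (k : ℕ)| := by
  obtain ⟨C0, hC0, hpf⟩ := pf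
  have hC00 : 0 < C0 := by linarith
  set L : ℝ := 2 * C0 ^ (m + 1) with hL
  have hL1 : 1 ≤ L := by
    have := one_le_pow₀ hC0 (n := m + 1)
    linarith
  have hL0 : 0 < L := by linarith
  set K : ℝ := ((m + 1).factorial : ℝ) * C0 ^ (m + 1) * L ^ m with hK
  have hK1 : 1 ≤ K := by
    have h1 : (1 : ℝ) ≤ ((m + 1).factorial : ℝ) := by exact_mod_cast Nat.one_le_iff_ne_zero.2 (Nat.factorial_ne_zero _)
    exact one_le_mul_of_one_le_of_one_le (one_le_mul_of_one_le_of_one_le h1 (one_le_pow₀ hC0)) (one_le_pow₀ hL1)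
  set F : ℝ := ((m + 2).factorial : ℝ) with hF
  have hF1 : 1 ≤ F := by
    rw [hF]
    exact_mod_cast Nat.one_le_iff_ne_zero.2 (Nat.factorial_ne_zero _)
  set G : ℝ := Real.exp ((m + 1 : ℕ) : ℝ) with hG
  have hG1 : 1 ≤ G := Real.one_le_exp (Nat.cast_nonneg _)
  obtain ⟨C2, hC2, hch⟩ := choose_n (2 * F * G) K L (by
    have : 1 ≤ F * G := one_le_mul_of_one_le_of_one_le hF1 hG1
    linarith) hK1 hL1
  refine ⟨2 * F * C2 ^ (m + 1), by positivity, fun H hH p hp hpH => ?_⟩
  obtain ⟨n, hn1, hn2, hn3⟩ := hch H hH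
  obtain ⟨D, hD0, hD, ha⟩ := hpf (m + 1) n (by omega) hn1
  choose a hPF hvan habs using ha
  set A : Matrix (Fin (m + 2)) (Fin (m + 2)) ℤ := Matrix.of fun j k => ∑ s ∈ Finset.range (n + 1), a j k s with hA
  have hdet : A.det ≠ 0 := by
    intro h0
    have h1 := pfd_of pfb (m + 1) n D a hn1 hD0 hPF hvan 1 one_ne_zero
    apply h1
    have h2 : (Matrix.of fun j k : Fin (m + 1 + 1) => ∑ s ∈ Finset.range (n + 1), (a j k s : ℂ) * 1 ^ s) =
        A.map (Int.cast : ℤ → ℂ) := by
      ext j k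
      simp [hA]
    rw [h2]
    have h3 := (Int.castRingHom ℂ).map_det A
    rw [h0, map_zero] at h3
    simpa using h3.symm
  have hnf : (0 : ℝ) < n.factorial := by exact_mod_cast n.factorial_pos
  have hnf1 : (1 : ℝ) ≤ n.factorial := by exact_mod_cast n.factorial_pos
  set M : ℝ := (n.factorial : ℝ) * L ^ n with hM
  have hM1 : 1 ≤ M := one_le_mul_of_one_le_of_one_le hnf1 (one_le_pow₀ hL1)
  have hAM : ∀ j k, |(A j k : ℝ)| ≤ M := by
    intro j k
    have h1 : (A j k : ℝ) = ∑ s ∈ Finset.range (n + 1), (a j k s : ℝ) := by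
      rw [hA, Matrix.of_apply]
      push_cast
      rfl
    rw [h1]
    have h2n : ((n : ℝ) + 1) ≤ 2 ^ n := by
      have : n + 1 ≤ 2 ^ n := Nat.lt_two_pow_self
      exact_mod_cast this
    calc |∑ s ∈ Finset.range (n + 1), (a j k s : ℝ)| ≤ ∑ s ∈ Finset.range (n + 1), |(a j k s : ℝ)| :=
          Finset.abs_sum_le_sum_abs _ _
      _ ≤ ∑ _s ∈ Finset.range (n + 1), (n.factorial : ℝ) * C0 ^ ((m + 1) * n) :=
          Finset.sum_le_sum fun s _ => habs j k s
      _ = ((n : ℝ) + 1) * ((n.factorial : ℝ) * C0 ^ ((m + 1) * n)) := by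
          rw [Finset.sum_const, Finset.card_range, nsmul_eq_mul]
          push_cast
          ring
      _ ≤ 2 ^ n * ((n.factorial : ℝ) * C0 ^ ((m + 1) * n)) := mul_le_mul_of_nonneg_right h2n (by positivity)
      _ = M := by
          rw [hM, hL, mul_pow, pow_mul]
          ring
  set R : ℝ := (n.factorial : ℝ) * ((m + 1).factorial : ℝ) ^ n * C0 ^ ((m + 1) * n) /
    (((m + 1 + 1) * n).factorial : ℝ) * G with hR
  have hRb : ∀ j, |∑ k : Fin (m + 2), (A j k : ℝ) * Real.exp 1 ^ (k : ℕ)| ≤ R := by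
    intro j
    have h1 := pfb (m + 1) n j D (a j) hn1 (hPF j) (hvan j) 1
    have h2 : RR n (a j) 1 = ((∑ k : Fin (m + 2), (A j k : ℝ) * Real.exp 1 ^ (k : ℕ) : ℝ) : ℂ) := by
      unfold RR
      push_cast
      refine Finset.sum_congr rfl fun k _ => ?_
      rw [hA, Matrix.of_apply]
      push_cast
      congr 1
      · refine Finset.sum_congr rfl fun s _ => ?_
        rw [one_pow, mul_one]
      · rw [← Complex.exp_nat_mul]
    rw [h2, Complex.norm_real, Real.norm_eq_abs] at h1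
    refine h1.trans ?_
    rw [norm_one, one_pow, mul_one, mul_one, hR]
    have hfac : (0 : ℝ) < (((m + 1 + 1) * n).factorial : ℝ) := by exact_mod_cast Nat.factorial_pos _
    apply mul_le_mul_of_nonneg_right _ (by linarith)
    exact div_le_div_of_nonneg_right hD hfac.le
  have key := det_est A hdet p hp (Real.exp 1) M R H hM1 hH hAM hRb hpH
  have hsmall : F * (R * H * M ^ m) ≤ 1 / 2 := by
    have hfac : (0 : ℝ) < (((m + 1 + 1) * n).factorial : ℝ) := by exact_mod_cast Nat.factorial_pos _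
    have hmul : ((n.factorial : ℝ)) ^ (m + 2) ≤ (((m + 1 + 1) * n).factorial : ℝ) := by
      have h1 := Nat.prod_factorial_dvd_factorial_sum (Finset.range (m + 2)) (fun _ => n)
      rw [Finset.prod_const, Finset.sum_const, Finset.card_range, smul_eq_mul] at h1
      have h2 := Nat.le_of_dvd (Nat.factorial_pos _) h1
      exact_mod_cast h2
    have h1 : R * H * M ^ m = ((n.factorial : ℝ) ^ (m + 1) * K ^ n * G * H) / (((m + 1 + 1) * n).factorial : ℝ) := by
      have e1 : C0 ^ ((m + 1) * n) = (C0 ^ (m + 1)) ^ n := pow_mul _ _ _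
      have e2 : (L ^ n) ^ m = (L ^ m) ^ n := by rw [← pow_mul, ← pow_mul, mul_comm]
      rw [hR, hM, hK, mul_pow (n.factorial : ℝ) (L ^ n) m, mul_pow (((m + 1).factorial : ℝ) * C0 ^ (m + 1)) (L ^ m) n,
        mul_pow ((m + 1).factorial : ℝ) (C0 ^ (m + 1)) n, e1, e2, pow_succ (n.factorial : ℝ) m]
      ring
    rw [h1]
    have h2 : (n.factorial : ℝ) ^ (m + 1) * K ^ n * G * H / (((m + 1 + 1) * n).factorial : ℝ) ≤
        K ^ n * G * H / (n.factorial : ℝ) := by
      rw [div_le_div_iff₀ hfac hnf]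
      calc (n.factorial : ℝ) ^ (m + 1) * K ^ n * G * H * (n.factorial : ℝ)
          = (K ^ n * G * H) * (n.factorial : ℝ) ^ (m + 2) := by ring
        _ ≤ (K ^ n * G * H) * (((m + 1 + 1) * n).factorial : ℝ) := mul_le_mul_of_nonneg_left hmul (by positivity)
    calc F * ((n.factorial : ℝ) ^ (m + 1) * K ^ n * G * H / (((m + 1 + 1) * n).factorial : ℝ))
        ≤ F * (K ^ n * G * H / (n.factorial : ℝ)) := mul_le_mul_of_nonneg_left h2 (by linarith)
      _ = (2 * F * G * K ^ n * H) / (n.factorial : ℝ) / 2 := by ring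
      _ ≤ 1 / 2 := by
          apply div_le_div_of_nonneg_right _ (by norm_num)
          rw [div_le_one hnf]
          exact hn2
  set S : ℝ := |∑ k : Fin (m + 2), (p k : ℝ) * Real.exp 1 ^ (k : ℕ)| with hS
  have hS0 : 0 ≤ S := abs_nonneg _
  have h1 : 1 / 2 ≤ F * (S * M ^ (m + 1)) := by
    have : F * (S * M ^ (m + 1) + R * H * M ^ m) = F * (S * M ^ (m + 1)) + F * (R * H * M ^ m) := by ring
    linarith [key, this]
  have h2 : M ^ (m + 1) ≤ (C2 * H ^ 2) ^ (m + 1) := pow_le_pow_left₀ (by linarith) hn3 _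
  calc (1 : ℝ) = 2 * (1 / 2) := by norm_num
    _ ≤ 2 * (F * (S * M ^ (m + 1))) := by linarith
    _ ≤ 2 * (F * (S * (C2 * H ^ 2) ^ (m + 1))) := by
        apply mul_le_mul_of_nonneg_left _ (by norm_num)
        apply mul_le_mul_of_nonneg_left _ (by linarith)
        exact mul_le_mul_of_nonneg_left h2 hS0
    _ = 2 * F * C2 ^ (m + 1) * H ^ (2 * (m + 1)) * S := by
        rw [mul_pow, ← pow_mul]
        ring

open Pool.Agent.Y124 MvPolynomial in
/-- `e` has a measure of transcendence of polynomial type -/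
theorem goodXi_e : GoodXi (fun _ : Unit => Real.exp 1) := by
  classical
  intro d
  obtain ⟨C, hC, hP⟩ := meas d
  refine ⟨2 * (d + 1), 1 / C, by positivity, ?_⟩
  intro h P hh hP0 hdeg hcf
  have hdegOf : ∀ i, P.degreeOf i ≤ d := fun i => (degreeOf_le_totalDegree P i).trans hdeg
  have hdegOf' : ∀ i, P.degreeOf i ≤ d + 1 := fun i => (hdegOf i).trans (Nat.le_succ d)
  let co : Fin (d + 2) → ℤ := fun e => P.coeff (sV fun _ : Unit => e)
  have hne : co ≠ 0 := by
    intro h0
    obtain ⟨s, hs⟩ := support_nonempty.2 hP0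
    obtain ⟨z, hz⟩ := exists_sV P hdegOf' s hs
    have h1 := congrFun h0 (z ())
    have h2 : (fun _ : Unit => z ()) = z := by
      funext u
      rfl
    simp only [co, h2, hz, Pi.zero_apply] at h1
    exact mem_support_iff.1 hs h1
  have h1 := hP h hh co hne (fun k => hcf _)
  have h2 : ∑ k : Fin (d + 2), (co k : ℝ) * Real.exp 1 ^ (k : ℕ) = aeval (fun _ : Unit => Real.exp 1) P := by
    rw [aeval_eq_sum (d := d + 1) _ P hdegOf', ← (Equiv.funUnique Unit (Fin (d + 2))).sum_comp]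
    refine Finset.sum_congr rfl fun z _ => ?_
    simp [co]
  rw [h2] at h1
  rw [div_le_iff₀ hC]
  linarith

end Pool.Agent.H164.EM
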